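import Mathlib

/-!
# Kneser's addition theorem for finite abelian groups

`stab C` is the stabiliser of a finset `C` in an additive abelian group `G`, `fs H` the finset of
elements of a subgroup `H`.  Main results:

* `kneser` : `|A + H| + |B + H| ≤ |A + B| + |H|` with `H = stab (A + B)`.
* `kneser_family` : the version for a finite family of sets.
* `kneser_quot`, `kneser_proper` : in terms of images in `G ⧸ H`.

The proof is Kemperman's version of Kneser's argument (merging lemma and e-transform).
-/

set_option autoImplicit false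

open Finset
open scoped Pointwise

namespace Pool.Agent.Kneser

variable {G : Type*} [AddCommGroup G] [Fintype G] [DecidableEq G]

/-- The stabiliser of a finset, as an additive subgroup. -/
def stab (C : Finset G) : AddSubgroup G where
  carrier := {g | ∀ x, g + x ∈ C ↔ x ∈ C}
  zero_mem' := by intro x; simp
  add_mem' := by
    intro a b ha hb x
    rw [add_assoc, ha, hb]
  neg_mem' := by
    intro a ha x
    have := ha (-a + x)
    rw [add_neg_cancel_left] at this
    exact this.symm

omit [Fintype G] [DecidableEq G] in
theorem mem_stab {C : Finset G} {g : G} : g ∈ stab C ↔ ∀ x, g + x ∈ C ↔ x ∈ C := Iff.rfl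

omit [Fintype G] [DecidableEq G] in
theorem stab_add_mem {C : Finset G} {g x : G} (hg : g ∈ stab C) : x + g ∈ C ↔ x ∈ C := by
  rw [add_comm]; exact hg x

open Classical in
/-- The finset of elements of a subgroup. -/
noncomputable def fs (H : AddSubgroup G) : Finset G := univ.filter (· ∈ H)

omit [DecidableEq G] in
@[simp] theorem mem_fs {H : AddSubgroup G} {x : G} : x ∈ fs H ↔ x ∈ H := by simp [fs]

omit [DecidableEq G] in
theorem fs_card_pos (H : AddSubgroup G) : 1 ≤ (fs H).card :=
  Finset.card_pos.2 ⟨0, by simp⟩

omit [DecidableEq G] in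
theorem fs_card_eq (H : AddSubgroup G) : (fs H).card = Nat.card H := by
  classical
  rw [Nat.card_eq_fintype_card, Fintype.card_subtype]
  congr 1

omit [DecidableEq G] in
theorem fs_card_mono {H K : AddSubgroup G} (h : H ≤ K) : (fs H).card ≤ (fs K).card := by
  apply Finset.card_le_card
  intro x hx
  simp at hx ⊢
  exact h hx

theorem grid (C1 C2 : Finset G) (c : G) :
    ((fs (stab C1)).filter (fun h => c + h ∈ C2)).card *
      ((fs (stab C2)).filter (fun h => c + h ∉ C1)).card ≤
    (fs (stab C1 ⊓ stab C2)).card * (C2 \ C1).card := by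
  rw [← Finset.card_product]
  apply Finset.card_le_mul_card_image_of_maps_to (f := fun p : G × G => c + p.1 + p.2)
  · rintro ⟨h1, h2⟩ hp
    simp only [mem_product, mem_filter, mem_fs] at hp
    obtain ⟨⟨h11, h12⟩, h21, h22⟩ := hp
    simp only [mem_sdiff]
    constructor
    · exact (stab_add_mem h21).2 h12
    · intro hc
      apply h22
      have : c + h1 + h2 = (c + h2) + h1 := by abel
      rw [this] at hc
      exact (stab_add_mem h11).1 hc
  · intro d _
    by_cases hne : (((fs (stab C1)).filter (fun h => c + h ∈ C2) ×ˢ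
        (fs (stab C2)).filter (fun h => c + h ∉ C1)).filter
        (fun p : G × G => c + p.1 + p.2 = d)).Nonempty
    · obtain ⟨⟨k1, k2⟩, hk⟩ := hne
      simp only [mem_product, mem_filter, mem_fs] at hk
      apply Finset.card_le_card_of_injOn (fun p : G × G => p.1 - k1)
      · rintro ⟨h1, h2⟩ hp
        simp only [coe_filter, mem_product, mem_filter, mem_fs, Set.mem_ofPred_eq] at hp
        simp only [mem_coe, mem_fs, AddSubgroup.mem_inf]
        refine ⟨AddSubgroup.sub_mem _ hp.1.1.1 hk.1.1.1, ?_⟩
        have e : h1 - k1 = k2 - h2 := by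
          have := hp.2.trans hk.2.symm
          have h3 : h1 + h2 = k1 + k2 := by
            rw [add_assoc, add_assoc] at this
            exact add_left_cancel this
          rw [sub_eq_sub_iff_add_eq_add, h3, add_comm]
        rw [e]
        exact AddSubgroup.sub_mem _ hk.1.2.1 hp.1.2.1
      · rintro ⟨h1, h2⟩ hp ⟨g1, g2⟩ hg he
        simp only [coe_filter, mem_product, mem_filter, mem_fs, Set.mem_ofPred_eq] at hp hg he
        have e1 : h1 = g1 := by simpa using he
        subst e1
        have e2 : h2 = g2 := by
          have := hp.2.trans hg.2.symm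
          exact add_left_cancel this
        rw [e2]
    · rw [Finset.not_nonempty_iff_eq_empty] at hne
      rw [hne]
      simp

theorem key (C1 C2 : Finset G) (c : G) (hc2 : c ∈ C2) (hc1 : c ∉ C1)
    (h1 : (C2 \ C1).card + (fs (stab C1 ⊓ stab C2)).card < (fs (stab C1)).card)
    (h2 : (C1 \ C2).card + (fs (stab C1 ⊓ stab C2)).card < (fs (stab C2)).card) :
    (fs (stab C2)).card < (fs (stab C1)).card := by
  have g1 := grid C1 C2 c
  have g2 := grid C2 C1 c
  rw [inf_comm (stab C2) (stab C1)] at g2
  have sa := Finset.card_filter_add_card_filter_not (s := fs (stab C1)) (fun h => c + h ∈ C2)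
  have sb := Finset.card_filter_add_card_filter_not (s := fs (stab C2)) (fun h => c + h ∈ C1)
  have m0 := fs_card_pos (stab C1 ⊓ stab C2)
  have la : (fs (stab C1 ⊓ stab C2)).card ≤
      ((fs (stab C1)).filter (fun h => c + h ∈ C2)).card := by
    apply Finset.card_le_card
    intro h hh
    simp only [mem_fs, AddSubgroup.mem_inf, mem_filter] at hh ⊢
    exact ⟨hh.1, (stab_add_mem hh.2).2 hc2⟩
  have lb' : (fs (stab C1 ⊓ stab C2)).card ≤
      ((fs (stab C2)).filter (fun h => c + h ∉ C1)).card := by
    apply Finset.card_le_card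
    intro h hh
    simp only [mem_fs, AddSubgroup.mem_inf, mem_filter] at hh ⊢
    exact ⟨hh.2, fun hx => hc1 ((stab_add_mem hh.1).1 hx)⟩
  have lb : ((fs (stab C2)).filter (fun h => c + h ∈ C1)).card ≠ 0 →
      (fs (stab C1 ⊓ stab C2)).card ≤
      ((fs (stab C2)).filter (fun h => c + h ∈ C1)).card := by
    intro hne
    obtain ⟨k, hk⟩ := Finset.card_ne_zero.1 hne
    simp only [mem_filter, mem_fs] at hk
    apply Finset.card_le_card_of_injOn (fun h => k + h)
    · intro h hh
      simp only [mem_coe, mem_fs, AddSubgroup.mem_inf] at hh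
      simp only [coe_filter, mem_fs, Set.mem_ofPred_eq]
      refine ⟨AddSubgroup.add_mem _ hk.1 hh.2, ?_⟩
      rw [← add_assoc]
      exact (stab_add_mem hh.1).2 hk.2
    · intro x _ y _ hxy
      exact add_left_cancel hxy
  set M0 := (fs (stab C1 ⊓ stab C2)).card
  set a := ((fs (stab C1)).filter (fun h => c + h ∈ C2)).card
  set a' := ((fs (stab C1)).filter (fun h => c + h ∉ C2)).card
  set b := ((fs (stab C2)).filter (fun h => c + h ∈ C1)).card
  set b' := ((fs (stab C2)).filter (fun h => c + h ∉ C1)).card
  set M1 := (fs (stab C1)).card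
  set M2 := (fs (stab C2)).card
  set x := (C2 \ C1).card
  set y := (C1 \ C2).card
  by_cases hb : b = 0
  · have hb' : b' = M2 := by omega
    rw [hb'] at g1
    have h3 : M0 * M2 ≤ M0 * x := le_trans (Nat.mul_le_mul_right _ la) g1
    have h4 : M2 ≤ x := Nat.le_of_mul_le_mul_left h3 m0
    omega
  · exfalso
    have lb2 := lb hb
    have ha1 : a ≤ x := by
      have h3 : a * M0 ≤ M0 * x := le_trans (Nat.mul_le_mul_left _ lb') g1
      rw [mul_comm] at h3
      exact Nat.le_of_mul_le_mul_left h3 m0
    have la' : M0 ≤ a' := by omega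
    have e1 : M0 * (a + a' - M0) ≤ a * a' := by
      zify [show M0 ≤ a + a' by omega]
      have p1 : (0 : ℤ) ≤ (a : ℤ) - M0 := by
        have := la; push_cast [← Int.ofNat_le] at *; omega
      have p2 : (0 : ℤ) ≤ (a' : ℤ) - M0 := by
        have := la'; push_cast [← Int.ofNat_le] at *; omega
      nlinarith [mul_nonneg p1 p2]
    have e2 : M0 * (b + b' - M0) ≤ b * b' := by
      zify [show M0 ≤ b + b' by omega]
      have p1 : (0 : ℤ) ≤ (b : ℤ) - M0 := by
        have := lb2; push_cast [← Int.ofNat_le] at *; omega
      have p2 : (0 : ℤ) ≤ (b' : ℤ) - M0 := by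
        have := lb'; push_cast [← Int.ofNat_le] at *; omega
      nlinarith [mul_nonneg p1 p2]
    have e3 : (M0 * x) * (M0 * y) < (M0 * (a + a' - M0)) * (M0 * (b + b' - M0)) := by
      apply Nat.mul_lt_mul''
      · apply Nat.mul_lt_mul_of_pos_left _ m0
        omega
      · apply Nat.mul_lt_mul_of_pos_left _ m0
        omega
    have e4 : (M0 * (a + a' - M0)) * (M0 * (b + b' - M0)) ≤ (a * a') * (b * b') :=
      Nat.mul_le_mul e1 e2
    have e5 : (a * b') * (b * a') ≤ (M0 * x) * (M0 * y) := Nat.mul_le_mul g1 g2
    have e6 : (a * b') * (b * a') = (a * a') * (b * b') := by ring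
    omega

/-- Merging lemma. -/
theorem merge (C1 C2 : Finset G) (N : ℕ)
    (h1 : N ≤ C1.card + (fs (stab C1)).card) (h2 : N ≤ C2.card + (fs (stab C2)).card) :
    N ≤ (C1 ∪ C2).card + (fs (stab (C1 ∪ C2))).card := by
  by_contra hlt
  push Not at hlt
  have hle : stab C1 ⊓ stab C2 ≤ stab (C1 ∪ C2) := by
    intro g hg x
    rw [AddSubgroup.mem_inf] at hg
    rw [mem_union, mem_union, hg.1 x, hg.2 x]
  have hm := fs_card_mono hle
  have c1 : (C1 ∪ C2).card = C1.card + (C2 \ C1).card := by
    rw [union_comm, ← Finset.card_sdiff_add_card C2 C1, add_comm]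
  have c2 : (C1 ∪ C2).card = C2.card + (C1 \ C2).card := by
    rw [← Finset.card_sdiff_add_card C1 C2, add_comm]
  by_cases hA : C2 \ C1 = ∅
  · rw [Finset.sdiff_eq_empty_iff_subset] at hA
    rw [Finset.union_eq_left.2 hA] at hlt
    omega
  by_cases hB : C1 \ C2 = ∅
  · rw [Finset.sdiff_eq_empty_iff_subset] at hB
    rw [Finset.union_eq_right.2 hB] at hlt
    omega
  obtain ⟨c, hc⟩ := Finset.nonempty_iff_ne_empty.2 hA
  obtain ⟨c', hc'⟩ := Finset.nonempty_iff_ne_empty.2 hB
  rw [mem_sdiff] at hc hc'
  have k1 := key C1 C2 c hc.1 hc.2 (by omega) (by omega)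
  have k2 := key C2 C1 c' hc'.1 hc'.2 (by rw [inf_comm]; omega) (by rw [inf_comm]; omega)
  omega

/-- A finite set `A` with `A + d ⊆ A` has `d` in its stabiliser. -/
theorem mem_stab_of_add_subset (A : Finset G) (d : G) (h : ∀ a ∈ A, d + a ∈ A) : d ∈ stab A := by
  have himg : A.image (fun a => d + a) = A := by
    apply Finset.eq_of_subset_of_card_le
    · intro x hx
      rw [mem_image] at hx
      obtain ⟨a, ha, rfl⟩ := hx
      exact h a ha
    · rw [Finset.card_image_of_injective _ (add_right_injective d)]
  intro x
  constructor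
  · intro hx
    rw [← himg, mem_image] at hx
    obtain ⟨a, ha, hax⟩ := hx
    have : a = x := add_left_cancel hax
    rwa [← this]
  · exact h x

theorem etransform (n : ℕ) : ∀ (A B : Finset G) (a0 b0 : G), B.card = n → a0 ∈ A → b0 ∈ B →
    ∃ C : Finset G, C ⊆ A + B ∧ a0 + b0 ∈ C ∧ A.card + B.card ≤ C.card + (fs (stab C)).card := by
  induction n using Nat.strong_induction_on with
  | _ n ih =>
  intro A B a0 b0 hB ha0 hb0
  by_cases hper : ∀ a ∈ A, ∀ b ∈ B, a + (b - b0) ∈ A
  · -- periodic case
    have hst : ∀ b ∈ B, b - b0 ∈ stab A := by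
      intro b hb
      apply mem_stab_of_add_subset
      intro a ha
      rw [add_comm]
      exact hper a ha b hb
    refine ⟨A.image (fun a => a + b0), ?_, ?_, ?_⟩
    · intro x hx
      rw [mem_image] at hx
      obtain ⟨a, ha, rfl⟩ := hx
      exact add_mem_add ha hb0
    · exact mem_image_of_mem _ ha0
    · rw [Finset.card_image_of_injective _ (add_left_injective b0)]
      apply Nat.add_le_add_left
      apply Finset.card_le_card_of_injOn (fun b => b - b0)
      · intro b hb
        simp only [coe_filter, mem_coe, mem_fs]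
        have h1 := hst b hb
        intro x
        simp only [mem_image]
        constructor
        · rintro ⟨a, ha, he⟩
          refine ⟨x - b0, ?_, by abel⟩
          have h2 : (b - b0) + (x - b0) ∈ A := by
            have : (b - b0) + (x - b0) = a := by
              have h3 : a = (b - b0 + x) - b0 := by rw [← he]; abel
              rw [h3]; abel
            rw [this]; exact ha
          exact (h1 _).1 h2
        · rintro ⟨a, ha, he⟩
          refine ⟨(b - b0) + a, (h1 a).2 ha, ?_⟩
          rw [← he]; abel
      · intro x _ y _ hxy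
        simpa using hxy
  · push Not at hper
    obtain ⟨a, ha, b, hb, hab⟩ := hper
    -- e = a - b0
    set A' := A ∪ B.image (fun x => x + (a - b0)) with hA'
    set B' := B.filter (fun x => x + (a - b0) ∈ A) with hB'
    have hb0' : b0 ∈ B' := by
      rw [hB', mem_filter]
      refine ⟨hb0, ?_⟩
      have : b0 + (a - b0) = a := by abel
      rw [this]; exact ha
    have hlt : B'.card < n := by
      rw [← hB]
      apply Finset.card_lt_card
      refine ⟨Finset.filter_subset _ _, ?_⟩
      intro hsub
      have := hsub hb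
      rw [hB', mem_filter] at this
      apply hab
      have e : a + (b - b0) = b + (a - b0) := by abel
      rw [e]; exact this.2
    obtain ⟨C, hC1, hC2, hC3⟩ := ih B'.card hlt A' B' a0 b0 rfl
      (by rw [hA']; exact mem_union_left _ ha0) hb0'
    refine ⟨C, ?_, hC2, ?_⟩
    · refine hC1.trans ?_
      intro x hx
      rw [mem_add] at hx
      obtain ⟨y, hy, z, hz, rfl⟩ := hx
      rw [hB', mem_filter] at hz
      rw [hA', mem_union, mem_image] at hy
      rcases hy with hy | ⟨w, hw, rfl⟩
      · exact add_mem_add hy hz.1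
      · have : w + (a - b0) + z = (z + (a - b0)) + w := by abel
        rw [this]
        exact add_mem_add hz.2 hw
    · have hcard : A'.card + B'.card = A.card + B.card := by
        have h1 : (B.image (fun x => x + (a - b0))).card = B.card :=
          Finset.card_image_of_injective _ (add_left_injective _)
        have h2 : (A ∩ B.image (fun x => x + (a - b0))).card = B'.card := by
          have : A ∩ B.image (fun x => x + (a - b0)) = B'.image (fun x => x + (a - b0)) := by
            ext x
            simp only [mem_inter, mem_image, hB', mem_filter]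
            constructor
            · rintro ⟨hx, y, hy, rfl⟩
              exact ⟨y, ⟨hy, hx⟩, rfl⟩
            · rintro ⟨y, ⟨hy, hy2⟩, rfl⟩
              exact ⟨hy2, y, hy, rfl⟩
          rw [this, Finset.card_image_of_injective _ (add_left_injective _)]
        have h3 := Finset.card_union_add_card_inter A (B.image (fun x => x + (a - b0)))
        rw [h2, h1, ← hA'] at h3
        exact h3
      omega

/-- Kneser's theorem, weak form. -/
theorem kneser_weak (A B : Finset G) (hA : A.Nonempty) (hB : B.Nonempty) :
    A.card + B.card ≤ (A + B).card + (fs (stab (A + B))).card := by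
  classical
  -- the maximal subset with the property
  let F : Finset (Finset G) := ((A + B).powerset).filter
    (fun C => A.card + B.card ≤ C.card + (fs (stab C)).card)
  obtain ⟨a0, ha0⟩ := hA
  obtain ⟨b0, hb0⟩ := hB
  obtain ⟨C0, hC0, _, hC0'⟩ := etransform B.card A B a0 b0 rfl ha0 hb0
  have hF : F.Nonempty := ⟨C0, by simp [F, hC0, hC0']⟩
  obtain ⟨C, hCF, hmax⟩ := Finset.exists_max_image F Finset.card hF
  have hC1 : C ⊆ A + B := by
    have := (mem_filter.1 hCF).1
    exact mem_powerset.1 this
  have hC2 := (mem_filter.1 hCF).2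
  have : C = A + B := by
    apply Finset.Subset.antisymm hC1
    intro x hx
    by_contra hxC
    rw [mem_add] at hx
    obtain ⟨a, ha, b, hb, rfl⟩ := hx
    obtain ⟨D, hD1, hD2, hD3⟩ := etransform B.card A B a b rfl ha hb
    have hU : C ∪ D ∈ F := by
      simp only [F, mem_filter, mem_powerset]
      exact ⟨union_subset hC1 hD1, merge C D _ hC2 hD3⟩
    have hle := hmax _ hU
    have hlt : C.card < (C ∪ D).card := by
      apply Finset.card_lt_card
      refine ⟨subset_union_left, ?_⟩
      intro hs
      exact hxC (hs (mem_union_right _ hD2))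
    omega
  rw [this] at hC2
  exact hC2

theorem add_fs_stab (C : Finset G) (H : AddSubgroup G) (hH : H ≤ stab C) : C + fs H = C := by
  ext x
  rw [mem_add]
  constructor
  · rintro ⟨y, hy, z, hz, rfl⟩
    exact (stab_add_mem (hH (by simpa using hz))).2 hy
  · intro hx
    exact ⟨x, hx, 0, by simp, by simp⟩

theorem fs_add_fs (H : AddSubgroup G) : fs H + fs H = fs H := by
  apply add_fs_stab
  intro g hg x
  simp only [mem_fs]
  exact ⟨fun h => (AddSubgroup.add_mem_cancel_left H hg).1 h,
    fun h => AddSubgroup.add_mem H hg h⟩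

/-- Kneser's theorem. -/
theorem kneser (A B : Finset G) (hA : A.Nonempty) (hB : B.Nonempty) :
    (A + fs (stab (A + B))).card + (B + fs (stab (A + B))).card ≤
      (A + B).card + (fs (stab (A + B))).card := by
  set H := stab (A + B) with hH
  have hHn : (fs H).Nonempty := ⟨0, by simp⟩
  have e : (A + fs H) + (B + fs H) = A + B := by
    have : (A + fs H) + (B + fs H) = (A + B) + (fs H + fs H) := by abel
    rw [this, fs_add_fs, add_fs_stab _ _ le_rfl]
  have := kneser_weak (A + fs H) (B + fs H) (hA.add hHn) (hB.add hHn)
  rw [e] at this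
  exact this

/-- stabiliser grows when adding a set -/
theorem stab_le_stab_add (A B : Finset G) : stab B ≤ stab (A + B) := by
  intro g hg x
  constructor
  · intro hx
    rw [mem_add] at hx
    obtain ⟨a, ha, b, hb, he⟩ := hx
    rw [mem_add]
    refine ⟨a, ha, -g + b, ?_, ?_⟩
    · exact ((stab B).neg_mem hg b).2 hb
    · have : x = -g + (a + b) := by rw [he]; abel
      rw [this]; abel
  · intro hx
    rw [mem_add] at hx
    obtain ⟨a, ha, b, hb, he⟩ := hx
    rw [mem_add]
    refine ⟨a, ha, g + b, (hg b).2 hb, ?_⟩
    rw [← he]; abel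

theorem le_stab_add_fs (A : Finset G) (H : AddSubgroup G) : H ≤ stab (A + fs H) := by
  refine le_trans ?_ (stab_le_stab_add A (fs H))
  intro g hg x
  simp only [mem_fs]
  exact ⟨fun h => (AddSubgroup.add_mem_cancel_left H hg).1 h,
    fun h => AddSubgroup.add_mem H hg h⟩

/-- Kneser's theorem for families, in `H`-periodic form. -/
theorem kneser_family_aux {ι : Type*} [DecidableEq ι] (s : Finset ι) (S : ι → Finset G)
    (hS : ∀ i ∈ s, (S i).Nonempty) (H : AddSubgroup G)
    (hH : stab (∑ i ∈ s, S i + fs H) ≤ H) :
    ∑ i ∈ s, ((S i + fs H).card - (fs H).card) + (fs H).card ≤ (∑ i ∈ s, S i + fs H).card := by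
  induction s using Finset.induction_on with
  | empty => simp
  | insert a s ha ih =>
    rw [Finset.sum_insert ha] at hH ⊢
    rw [Finset.sum_insert ha]
    have hHn : (fs H).Nonempty := ⟨0, by simp⟩
    have hn : (∑ i ∈ s, S i).Nonempty := by
      clear hH ih
      induction s using Finset.induction_on with
      | empty => simp
      | insert b s hb ih2 =>
        rw [Finset.sum_insert hb]
        apply Finset.Nonempty.add
        · exact hS b (by simp)
        · apply ih2
          · intro h; apply ha; simp [h]
          · intro i hi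
            apply hS
            simp only [mem_insert] at hi ⊢
            tauto
    have e0 : S a + ∑ i ∈ s, S i + fs H = S a + (∑ i ∈ s, S i + fs H) := by abel
    have hst : stab (∑ i ∈ s, S i + fs H) ≤ H := by
      refine le_trans (stab_le_stab_add (S a) _) ?_
      rw [← e0]; exact hH
    have ih' := ih (fun i hi => hS i (by simp [hi])) hst
    have e1 : (S a + fs H) + (∑ i ∈ s, S i + fs H) = S a + ∑ i ∈ s, S i + fs H := by
      have : (S a + fs H) + (∑ i ∈ s, S i + fs H) = S a + ∑ i ∈ s, S i + (fs H + fs H) := by abel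
      rw [this, fs_add_fs]
    have hst2 : stab ((S a + fs H) + (∑ i ∈ s, S i + fs H)) = H := by
      rw [e1]
      apply le_antisymm hH
      exact le_stab_add_fs _ _
    have hk := kneser_weak (S a + fs H) (∑ i ∈ s, S i + fs H) ((hS a (by simp)).add hHn)
      (hn.add hHn)
    rw [hst2, e1] at hk
    have hge : (fs H).card ≤ (S a + fs H).card := by
      obtain ⟨x, hx⟩ := hS a (by simp)
      apply Finset.card_le_card_of_injOn (fun y => x + y)
      · intro y hy
        exact add_mem_add hx hy
      · intro y _ z _ h
        exact add_left_cancel h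
    omega

end Pool.Agent.Kneser
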