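import Pool.Agent.Lib.Kneser.Basic

/-!
# Kneser's theorem in terms of images in the quotient
-/

set_option autoImplicit false

open Finset
open scoped Pointwise

namespace Pool.Agent.Kneser

variable {G : Type*} [AddCommGroup G] [Fintype G] [DecidableEq G]

open Classical in
/-- The image of a finset in `G ⧸ H`. -/
noncomputable def qim (H : AddSubgroup G) (A : Finset G) : Finset (G ⧸ H) :=
  A.image (QuotientAddGroup.mk)

omit [Fintype G] [DecidableEq G] in
theorem mem_qim {H : AddSubgroup G} {A : Finset G} {x : G ⧸ H} :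
    x ∈ qim H A ↔ ∃ a ∈ A, (a : G ⧸ H) = x := by
  classical
  simp [qim]

omit [Fintype G] [DecidableEq G] in
theorem qim_nonempty {H : AddSubgroup G} {A : Finset G} (hA : A.Nonempty) :
    (qim H A).Nonempty := by
  classical
  exact hA.image _

theorem card_add_fs (H : AddSubgroup G) (A : Finset G) :
    (A + fs H).card = (qim H A).card * (fs H).card := by
  classical
  have hmap : ∀ x ∈ A + fs H, (QuotientAddGroup.mk x : G ⧸ H) ∈ qim H A := by
    intro x hx
    rw [mem_add] at hx
    obtain ⟨a, ha, h, hh, rfl⟩ := hx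
    rw [mem_qim]
    refine ⟨a, ha, ?_⟩
    rw [QuotientAddGroup.eq]
    simpa using hh
  rw [Finset.card_eq_sum_card_fiberwise hmap]
  rw [Finset.sum_const_nat]
  intro y hy
  rw [mem_qim] at hy
  obtain ⟨a, ha, rfl⟩ := hy
  symm
  apply Finset.card_bij (fun h _ => a + h)
  · intro h hh
    rw [mem_filter]
    refine ⟨add_mem_add ha hh, ?_⟩
    rw [eq_comm, QuotientAddGroup.eq]
    simpa using hh
  · intro x _ y _ h
    exact add_left_cancel h
  · intro x hx
    rw [mem_filter] at hx
    refine ⟨-a + x, ?_, by abel⟩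
    rw [mem_fs, ← QuotientAddGroup.eq]
    exact hx.2.symm

theorem index_mul_card_fs (H : AddSubgroup G) : H.index * (fs H).card = Fintype.card G := by
  rw [fs_card_eq, AddSubgroup.index_mul_card, Nat.card_eq_fintype_card]

theorem qim_card_le_index (H : AddSubgroup G) (A : Finset G) : (qim H A).card ≤ H.index := by
  have h1 := card_add_fs H A
  have h2 := index_mul_card_fs H
  have h3 : (A + fs H).card ≤ Fintype.card G := Finset.card_le_univ _
  have h4 := fs_card_pos H
  rw [h1, ← h2] at h3
  exact Nat.le_of_mul_le_mul_right h3 h4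

/-- Kneser's theorem for families, in the quotient by the stabiliser of the sum. -/
theorem kneser_quot {ι : Type*} [DecidableEq ι] (s : Finset ι) (S : ι → Finset G)
    (hS : ∀ i ∈ s, (S i).Nonempty) :
    ∑ i ∈ s, ((qim (stab (∑ i ∈ s, S i)) (S i)).card - 1) + 1 ≤
      (qim (stab (∑ i ∈ s, S i)) (∑ i ∈ s, S i)).card := by
  set T := ∑ i ∈ s, S i with hT
  set H := stab T with hH
  have e : T + fs H = T := add_fs_stab _ _ le_rfl
  have h1 := kneser_family_aux s S hS H (by rw [← hT, e])
  rw [← hT] at h1
  have h4 := fs_card_pos H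
  have h5 : ∀ i ∈ s, (S i + fs H).card - (fs H).card = ((qim H (S i)).card - 1) * (fs H).card := by
    intro i _
    rw [card_add_fs, Nat.sub_mul, one_mul]
  rw [Finset.sum_congr rfl h5, ← Finset.sum_mul, card_add_fs] at h1
  have h6 : (∑ i ∈ s, ((qim H (S i)).card - 1) + 1) * (fs H).card ≤
      (qim H T).card * (fs H).card := by
    rw [add_mul, one_mul]; exact h1
  exact Nat.le_of_mul_le_mul_right h6 h4

theorem qim_card_lt_index (T : Finset G) (hT : T ≠ univ) :
    (qim (stab T) T).card + 1 ≤ (stab T).index := by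
  have e : T + fs (stab T) = T := add_fs_stab _ _ le_rfl
  have h1 := card_add_fs (stab T) T
  have h2 := index_mul_card_fs (stab T)
  rw [e] at h1
  have h3 : T.card < Fintype.card G := by
    rw [← Finset.card_univ]
    exact Finset.card_lt_card (Finset.ssubset_univ_iff.2 hT)
  rw [h1, ← h2] at h3
  exact Nat.lt_of_mul_lt_mul_right h3

theorem stab_ne_top (T : Finset G) (hT : T ≠ univ) (hn : T.Nonempty) : stab T ≠ ⊤ := by
  intro h
  apply hT
  obtain ⟨t, ht⟩ := hn
  ext x
  simp only [mem_univ, iff_true]
  have : x - t ∈ stab T := by rw [h]; trivial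
  have := (this t).2 ht
  simpa using this

theorem sum_nonempty {ι : Type*} [DecidableEq ι] (s : Finset ι) (S : ι → Finset G)
    (hS : ∀ i ∈ s, (S i).Nonempty) : (∑ i ∈ s, S i).Nonempty := by
  induction s using Finset.induction_on with
  | empty => simp
  | insert b s hb ih2 =>
    rw [Finset.sum_insert hb]
    apply Finset.Nonempty.add
    · exact hS b (by simp)
    · apply ih2
      intro i hi
      apply hS
      simp [hi]

/-- **Kneser, usable form.**  If `B + ∑ S_i` is not everything, there is a proper subgroup `H`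
(its stabiliser) with `|B/H| + ∑ (|S_i/H| - 1) ≤ [G:H] - 1`. -/
theorem kneser_proper {ι : Type*} [DecidableEq ι] (s : Finset ι) (S : ι → Finset G)
    (B : Finset G) (hB : B.Nonempty) (hS : ∀ i ∈ s, (S i).Nonempty)
    (hT : B + ∑ i ∈ s, S i ≠ univ) :
    stab (B + ∑ i ∈ s, S i) ≠ ⊤ ∧
    (qim (stab (B + ∑ i ∈ s, S i)) B).card +
      ∑ i ∈ s, ((qim (stab (B + ∑ i ∈ s, S i)) (S i)).card - 1) + 1 ≤
      (stab (B + ∑ i ∈ s, S i)).index := by
  classical
  set T := B + ∑ i ∈ s, S i with hTdef
  have hn : T.Nonempty := hB.add (sum_nonempty s S hS)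
  refine ⟨stab_ne_top T hT hn, ?_⟩
  let S' : Option ι → Finset G := fun o => o.elim B S
  have hs : ∑ o ∈ insertNone s, S' o = T := by
    rw [Finset.sum_insertNone]
    rfl
  have h1 := kneser_quot (insertNone s) S' (by
    intro o ho
    rcases o with _ | i
    · exact hB
    · exact hS i (by simpa using ho))
  rw [hs, Finset.sum_insertNone] at h1
  have h2 := qim_card_lt_index T hT
  have h3 : 1 ≤ (qim (stab T) B).card := Finset.card_pos.2 (qim_nonempty hB)
  have h4 : ((qim (stab T) (S' none)).card - 1) = (qim (stab T) B).card - 1 := rfl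
  have h5 : ∀ i ∈ s, ((qim (stab T) (S' (some i))).card - 1) = (qim (stab T) (S i)).card - 1 :=
    fun i _ => rfl
  rw [h4, Finset.sum_congr rfl h5] at h1
  omega

end Pool.Agent.Kneser
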